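import Mathlib
import Pool.Agent.R582.CL.Use

set_option autoImplicit false

/-!
# MP_174cbb_lc, Q2: it is consistent that the clone lattice on `ℵ_ω` is not dually atomic

For every infinite cardinal `κ` (regular or singular) there is a forcing extension with the same
cardinals in which `CLONE(λ)` is not dually atomic for any infinite cardinal `λ ≤ κ`.
-/

namespace Pool.Agent.Results.MP_174cbb_lc.SingularModel

open Cardinal Pool.Agent.R582.CL

/-- (1) For every infinite set `X` there are a linearly ordered set `L` and a notion of forcing `P`
(adding `2 ^ #X` Cohen reals) all whose conditions force that cardinals are preserved and that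
`Hyp X L` holds (`HypN P X L` is the translation of `Hyp X L` into the forcing language).
(2) `Hyp X L` implies that the clone lattice on `Y` is not dually atomic for all infinite sets `Y`
of cardinality at most that of `X`. -/
theorem result :
    (∀ (X : Type) [Infinite X], ∃ (L : Type) (_ : LinearOrder L) (P : Type) (_ : Preorder P),
      Nonempty P ∧ ∀ p : P, p ∈ HypN P X L ∧
        ∀ Y Z : Type, ℵ₀ < #Z → #Y < #Z → p ∈ Pool.Agent.H631R2.NoOnto P Y Z) ∧
    ∀ (X L : Type) [LinearOrder L] [Infinite X], Hyp X L →
      ∀ (Y : Type) [Infinite Y], #Y ≤ #X →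
        ¬ Pool.Agent.Results.MP_174cbb_lc.Regular.DuallyAtomic Y := by
  refine ⟨fun X _ => forced X, ?_⟩
  intro X L _ _ H Y _ hY
  exact not_duallyAtomic (Cardinal.aleph0_le_mk X) H Y hY

end Pool.Agent.Results.MP_174cbb_lc.SingularModel
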